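import Pool.Agent.T9h39.PZ.Spec

/-! PIECE `S_Iso` of `T9h39/PZ/Spec.lean`: the partitions without conflict form a puzzle. -/

set_option autoImplicit false

namespace Pool.Agent.T9h89.PZ

open Finset
open Pool.Agent.T9h39.PZ

theorem isoP : S_Iso := by
  classical
  intro k m A B _ _ φ c hk hm hc hφ v
  set p := (iso φ v).equivFin.symm with hp
  have hmem : ∀ j, Bal m (p j).1.2 ∧ Sums v (p j).1.2 (fun i => φ i (p j).1.1) ∧
      ∀ σ', Bal m σ' → Sums v σ' (fun i => φ i (p j).1.1) → Share (p j).1.2 σ' →
        σ' = (p j).1.2 := by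
    intro j
    have h := (p j).2
    unfold iso at h
    exact (mem_filter.1 h).2
  set S : Fin (iso φ v).card → Fin k → Finset (Fin (k * m)) :=
    fun j r => univ.filter fun x => (p j).1.2 x = r with hS
  have hScard : ∀ j r, (S j r).card = m := by
    intro j r
    have := (hmem j).1 r
    rw [hS]
    convert this
  have hSsum : ∀ j r, ∑ x ∈ S j r, v x = φ r (p j).1.1 := by
    intro j r
    have := (hmem j).2.1 r
    rw [hS]
    convert this
  refine ⟨S, hScard, ?_, ?_⟩
  · intro j r r' hrr
    refine disjoint_filter.2 fun x _ h1 h2 => hrr (h1.symm.trans h2)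
  intro j r hdis
  -- the parts cover
  have hcov : univ.biUnion (fun a : Fin k => S (j a) (r a)) = univ := by
    apply eq_univ_of_card
    rw [card_biUnion (fun a _ b _ hab => hdis a b hab), sum_congr rfl fun a _ => hScard _ _,
      sum_const, card_univ, Fintype.card_fin, Fintype.card_fin, smul_eq_mul]
  have hsum : ∑ x, v x = ∑ a, φ (r a) (p (j a)).1.1 := by
    rw [← hcov, sum_biUnion (fun a _ b _ hab => hdis a b hab)]
    exact sum_congr rfl fun a _ => hSsum _ _
  have hsumc : ∑ x, v x = c := by
    have a0 : Fin k := ⟨0, by omega⟩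
    have h1 : ∑ x, v x = ∑ i, ∑ x ∈ S (j a0) i, v x :=
      (sum_fiberwise univ (fun x => (p (j a0)).1.2 x) v).symm
    rw [h1, sum_congr rfl fun i _ => hSsum (j a0) i]
    exact hc _
  obtain ⟨hrinj, hbeq⟩ := hφ r (fun a => (p (j a)).1.1) (hsum.symm.trans hsumc)
  have hrsurj : Function.Surjective r := Finite.surjective_of_injective hrinj
  -- the partition formed of the parts
  have hex : ∀ x, ∃ a, x ∈ S (j a) (r a) := by
    intro x
    have : x ∈ univ.biUnion (fun a : Fin k => S (j a) (r a)) := by rw [hcov]; exact mem_univ _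
    obtain ⟨a, _, ha⟩ := mem_biUnion.1 this
    exact ⟨a, ha⟩
  choose q hq using hex
  set σ' : Fin (k * m) → Fin k := fun x => r (q x) with hσ'
  have hfib : ∀ a x, σ' x = r a ↔ (p (j a)).1.2 x = r a := by
    intro a x
    constructor
    · intro h
      have h1 : q x = a := hrinj h
      have h2 := hq x
      rw [h1] at h2
      exact (mem_filter.1 h2).2
    · intro h
      have h1 : x ∈ S (j a) (r a) := mem_filter.2 ⟨mem_univ _, h⟩
      have h2 : q x = a := by
        by_contra hne
        exact disjoint_left.1 (hdis (q x) a hne) (hq x) h1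
      rw [hσ']
      simp only [h2]
  have hset : ∀ a, univ.filter (fun x => σ' x = r a) = S (j a) (r a) := by
    intro a
    ext x
    simp only [hS, mem_filter, mem_univ, true_and]
    exact hfib a x
  have hbal : Bal m σ' := by
    intro i
    obtain ⟨a, rfl⟩ := hrsurj i
    have := hScard (j a) (r a)
    rw [← hset a] at this
    convert this
  have hsums : ∀ a₀, Sums v σ' (fun i => φ i (p (j a₀)).1.1) := by
    intro a₀ i
    obtain ⟨a, rfl⟩ := hrsurj i
    have h1 := hSsum (j a) (r a)
    have h2 : (p (j a)).1.1 = (p (j a₀)).1.1 := hbeq a a₀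
    rw [← hset a, h2] at h1
    convert h1
  have heq : ∀ a, σ' = (p (j a)).1.2 := fun a =>
    (hmem (j a)).2.2 σ' hbal (hsums a) ⟨r a, fun x => (hfib a x).symm⟩
  intro a b
  refine ⟨?_, fun hab h => hab (hrinj h)⟩
  apply p.injective
  apply Subtype.ext
  exact Prod.ext (hbeq a b) ((heq a).symm.trans (heq b))

end Pool.Agent.T9h89.PZ
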